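import Mathlib

set_option autoImplicit false

/-! A counterexample: critical points of `Q = (1 - x)^2 + y - z` which converge to a point of the
torus orbit of an edge, in directions whose limit is not parallel to that edge. -/

namespace Pool.Agent.Results.MP_759130_ag.NotParallel

open Filter Topology
open scoped Pointwise

/-- Laurent polynomials in `d` variables: exponent vectors with their coefficients. -/
abbrev Laurent (d : ℕ) := (Fin d → ℤ) →₀ ℂ

/-- the Laurent monomial `z ^ a` -/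
noncomputable def mono {d : ℕ} (a : Fin d → ℤ) (z : Fin d → ℂ) : ℂ := ∏ i, z i ^ a i

/-- the value of the Laurent polynomial at `z` -/
noncomputable def ev {d : ℕ} (Q : Laurent d) (z : Fin d → ℂ) : ℂ :=
  Q.sum (fun a c => c * mono a z)

/-- the zero set of `Q` in the torus -/
def V {d : ℕ} (Q : Laurent d) : Set (Fin d → ℂ) := {z | (∀ i, z i ≠ 0) ∧ ev Q z = 0}

/-- the logarithmic gradient, with coordinates `z i * ∂Q/∂z i` -/
noncomputable def logGrad {d : ℕ} (Q : Laurent d) (z : Fin d → ℂ) : Fin d → ℂ :=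
  fun i => z i * deriv (fun t => ev Q (Function.update z i t)) (z i)

/-- `z` is a point of `V Q` at which the gradient of `Q` does not vanish (so that `V Q` is smooth
at `z`), and it is critical in the direction `[r 0 : ... : r (d-1)]`. -/
def IsSmoothCritical {d : ℕ} (Q : Laurent d) (z r : Fin d → ℂ) : Prop :=
  z ∈ V Q ∧ logGrad Q z ≠ 0 ∧ ∃ c : ℂ, c ≠ 0 ∧ logGrad Q z = c • r

/-- the real vector of an integer vector -/
def toR {d : ℕ} (a : Fin d → ℤ) : Fin d → ℝ := fun i => (a i : ℝ)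

/-- the Newton polytope -/
def N {d : ℕ} (Q : Laurent d) : Set (Fin d → ℝ) := convexHull ℝ (toR '' (Q.support : Set (Fin d → ℤ)))

/-- `Γ` is a (nonempty) face of the polytope `P` -/
def IsFace {d : ℕ} (P Γ : Set (Fin d → ℝ)) : Prop := IsExposed ℝ P Γ ∧ Γ.Nonempty

/-- the lattice points of the `k`-th dilate of the Newton polytope -/
def Lat {d : ℕ} (k : ℕ) (Q : Laurent d) : Set (Fin d → ℤ) := {a | toR a ∈ (k : ℝ) • N Q}

/-- homogeneous coordinates of the image of a point of the torus under the monomial map of the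
lattice points of the `k`-th dilate of the Newton polytope -/
noncomputable def torusMap {d : ℕ} (k : ℕ) (Q : Laurent d) (z : Fin d → ℂ) : Lat k Q → ℂ :=
  fun a => mono a.1 z

/-- convergence in projective space: the points `[v j]` converge to `[w]` -/
def ProjTendsto {ι : Type} (v : ℕ → ι → ℂ) (w : ι → ℂ) : Prop :=
  w ≠ 0 ∧ ∃ c : ℕ → ℂ, (∀ j, c j ≠ 0) ∧ Tendsto (fun j => c j • v j) atTop (𝓝 w)

/-- the point with homogeneous coordinates `x` lies in the torus orbit of the face `Γ` : its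
nonzero coordinates are those of the lattice points of `k • Γ` -/
def InOrbit {d : ℕ} (k : ℕ) (Q : Laurent d) (Γ : Set (Fin d → ℝ)) (x : Lat k Q → ℂ) : Prop :=
  ∀ a : Lat k Q, x a ≠ 0 ↔ toR a.1 ∈ (k : ℝ) • Γ

/-- the direction `r` is parallel to `Γ` -/
def Parallel {d : ℕ} (r : Fin d → ℂ) (Γ : Set (Fin d → ℝ)) : Prop :=
  r ∈ Submodule.span ℂ {v : Fin d → ℂ | ∃ a ∈ Γ, ∃ b ∈ Γ, v = fun i => ((a i - b i : ℝ) : ℂ)}

/-- `(1 - x)^2 + y - z` -/
noncomputable def Q0 : Laurent 3 :=
  Finsupp.single ![0, 0, 0] 1 + Finsupp.single ![1, 0, 0] (-2) + Finsupp.single ![2, 0, 0] 1 +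
    Finsupp.single ![0, 1, 0] 1 + Finsupp.single ![0, 0, 1] (-1)

lemma ev_Q0 (z : Fin 3 → ℂ) : ev Q0 z = (1 - z 0) ^ 2 + z 1 - z 2 := by
  unfold ev Q0
  rw [Finsupp.sum_add_index', Finsupp.sum_add_index', Finsupp.sum_add_index',
    Finsupp.sum_add_index']
  · rw [Finsupp.sum_single_index, Finsupp.sum_single_index, Finsupp.sum_single_index,
      Finsupp.sum_single_index, Finsupp.sum_single_index]
    · simp only [mono, Fin.prod_univ_three]
      simp
      ring
    all_goals simp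
  all_goals intros; simp [add_mul]

lemma logGrad_Q0 (z : Fin 3 → ℂ) : logGrad Q0 z = ![-2 * z 0 * (1 - z 0), z 1, - z 2] := by
  funext i
  unfold logGrad
  simp only [ev_Q0]
  fin_cases i
  · have h : HasDerivAt (fun t : ℂ => (1 - t) ^ 2 + z 1 - z 2) (-2 * (1 - z 0)) (z 0) := by
      have h1 : HasDerivAt (fun t : ℂ => 1 - t) (-1) (z 0) := by
        simpa using (hasDerivAt_id (z 0)).const_sub 1
      have h2 := ((h1.pow 2).add_const (z 1)).sub_const (z 2)
      have e : ((2 : ℕ) : ℂ) * (1 - z 0) ^ (2 - 1) * -1 = -2 * (1 - z 0) := by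
        norm_num
      rw [e] at h2
      exact h2
    show z 0 * deriv (fun t : ℂ => (1 - t) ^ 2 + z 1 - z 2) (z 0) = -2 * z 0 * (1 - z 0)
    rw [h.deriv]
    ring
  · have h : HasDerivAt (fun t : ℂ => (1 - z 0) ^ 2 + t - z 2) 1 (z 1) := by
      have := ((hasDerivAt_id (z 1)).const_add ((1 - z 0) ^ 2)).sub_const (z 2)
      simpa using this
    show z 1 * deriv (fun t : ℂ => (1 - z 0) ^ 2 + t - z 2) (z 1) = z 1
    rw [h.deriv]
    ring
  · have h : HasDerivAt (fun t : ℂ => (1 - z 0) ^ 2 + z 1 - t) (-1) (z 2) := by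
      have := (hasDerivAt_id (z 2)).const_sub ((1 - z 0) ^ 2 + z 1)
      simpa using this
    show z 2 * deriv (fun t : ℂ => (1 - z 0) ^ 2 + z 1 - t) (z 2) = -z 2
    rw [h.deriv]
    ring

lemma supp : Q0.support = {![0, 0, 0], ![1, 0, 0], ![2, 0, 0], ![0, 1, 0], ![0, 0, 1]} := by
  ext a
  unfold Q0
  simp only [Finsupp.mem_support_iff, Finsupp.add_apply, Finset.mem_insert, Finset.mem_singleton]
  constructor
  · intro h
    by_contra hcon
    push Not at hcon
    obtain ⟨h1, h2, h3, h4, h5⟩ := hcon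
    apply h
    simp [Finsupp.single_apply, h1.symm, h2.symm, h3.symm, h4.symm, h5.symm]
  · have e : ∀ a b : Fin 3 → ℤ, a = b ↔ (a 0 = b 0 ∧ a 1 = b 1 ∧ a 2 = b 2) := by
      intro a b
      constructor
      · rintro rfl; simp
      · rintro ⟨h1, h2, h3⟩
        funext i; fin_cases i <;> assumption
    rintro (rfl | rfl | rfl | rfl | rfl)
    all_goals simp [Finsupp.single_apply, e]

lemma N_nonneg {x : Fin 3 → ℝ} (hx : x ∈ N Q0) (i : Fin 3) : 0 ≤ x i := by
  have hc : Convex ℝ {y : Fin 3 → ℝ | 0 ≤ y i} := by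
    intro a ha b hb s t hs ht hst
    simp only [Set.mem_ofPred_eq] at *
    simp only [Pi.add_apply, Pi.smul_apply, smul_eq_mul]
    positivity
  have hsub : toR '' (Q0.support : Set (Fin 3 → ℤ)) ⊆ {y : Fin 3 → ℝ | 0 ≤ y i} := by
    rintro _ ⟨a, ha, rfl⟩
    rw [supp] at ha
    simp only [Finset.coe_insert, Finset.coe_singleton, Set.mem_insert_iff,
      Set.mem_singleton_iff] at ha
    simp only [Set.mem_ofPred_eq, toR]
    rcases ha with rfl | rfl | rfl | rfl | rfl <;> fin_cases i <;> simp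
  exact convexHull_min hsub hc hx

lemma mem_N (a : Fin 3 → ℤ) (ha : a ∈ Q0.support) : toR a ∈ N Q0 :=
  subset_convexHull ℝ _ ⟨a, ha, rfl⟩

/-- the functional exposing the edge -/
noncomputable def lf : StrongDual ℝ (Fin 3 → ℝ) :=
  -((ContinuousLinearMap.proj (1 : Fin 3) : StrongDual ℝ (Fin 3 → ℝ)) +
    (ContinuousLinearMap.proj (2 : Fin 3) : StrongDual ℝ (Fin 3 → ℝ)))

lemma lf_apply (x : Fin 3 → ℝ) : lf x = -(x 1 + x 2) := by
  simp [lf]

/-- the edge of the Newton polytope -/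
def Γ0 : Set (Fin 3 → ℝ) := {x | x ∈ N Q0 ∧ ∀ y ∈ N Q0, lf y ≤ lf x}

lemma zero_mem : (0 : Fin 3 → ℝ) ∈ N Q0 := by
  have := mem_N ![0, 0, 0] (by rw [supp]; simp)
  convert this using 1
  funext i
  fin_cases i <;> simp [toR]

lemma mem_Γ0 (x : Fin 3 → ℝ) : x ∈ Γ0 ↔ x ∈ N Q0 ∧ x 1 = 0 ∧ x 2 = 0 := by
  constructor
  · rintro ⟨h1, h2⟩
    have h3 := h2 0 zero_mem
    rw [lf_apply, lf_apply] at h3
    have h4 := N_nonneg h1 1
    have h5 := N_nonneg h1 2
    simp only [Pi.zero_apply] at h3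
    exact ⟨h1, by linarith, by linarith⟩
  · rintro ⟨h1, h2, h3⟩
    refine ⟨h1, ?_⟩
    intro y hy
    rw [lf_apply, lf_apply, h2, h3]
    have h4 := N_nonneg hy 1
    have h5 := N_nonneg hy 2
    linarith

lemma isFace : IsFace (N Q0) Γ0 := by
  refine ⟨fun _ => ⟨lf, rfl⟩, 0, ?_⟩
  rw [mem_Γ0]
  exact ⟨zero_mem, rfl, rfl⟩

lemma fullDim : affineSpan ℝ (N Q0) = ⊤ := by
  have h0 : (0 : Fin 3 → ℝ) ∈ affineSpan ℝ (N Q0) := subset_affineSpan ℝ _ zero_mem
  have hsp : ∀ i : Fin 3, (Pi.single i (1 : ℝ) : Fin 3 → ℝ) ∈ affineSpan ℝ (N Q0) := by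
    intro i
    apply subset_affineSpan ℝ _
    fin_cases i
    · have := mem_N ![1, 0, 0] (by rw [supp]; simp)
      convert this using 1
      funext i
      fin_cases i <;> simp [toR]
    · have := mem_N ![0, 1, 0] (by rw [supp]; simp)
      convert this using 1
      funext i
      fin_cases i <;> simp [toR]
    · have := mem_N ![0, 0, 1] (by rw [supp]; simp)
      convert this using 1
      funext i
      fin_cases i <;> simp [toR]
  have hdir : (affineSpan ℝ (N Q0)).direction = ⊤ := by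
    rw [eq_top_iff]
    intro v _
    have : v = ∑ i, v i • (Pi.single i (1 : ℝ) : Fin 3 → ℝ) := by
      funext j
      simp [Finset.sum_apply, Pi.single_apply]
    rw [this]
    apply Submodule.sum_mem
    intro i _
    apply Submodule.smul_mem
    have := AffineSubspace.vsub_mem_direction (hsp i) h0
    simpa using this
  rw [AffineSubspace.direction_eq_top_iff_of_nonempty ⟨0, h0⟩] at hdir
  exact hdir

/-- the sequence of parameters -/
noncomputable def eps (j : ℕ) : ℂ := 1 / ((j : ℂ) + 1 + 1)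

lemma eps_ne (j : ℕ) : eps j ≠ 0 := by
  unfold eps
  have : ((j : ℂ) + 1 + 1) ≠ 0 := by
    have := Nat.cast_add_one_ne_zero (R := ℂ) (j + 1)
    push_cast at this
    exact this
  exact one_div_ne_zero this

lemma eps_inv (j : ℕ) : (eps j)⁻¹ = (j : ℂ) + 1 + 1 := by
  unfold eps
  simp

lemma one_sub_eps_ne (j : ℕ) : 1 - eps j ≠ 0 := by
  intro h
  have h1 : eps j = 1 := by linear_combination -h
  have h2 : (eps j)⁻¹ = 1 := by rw [h1]; simp
  rw [eps_inv] at h2
  have h3 : ((j : ℂ) + 1) = 0 := by linear_combination h2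
  exact Nat.cast_add_one_ne_zero (R := ℂ) j h3

lemma one_add_eps_ne (j : ℕ) : 1 + eps j ≠ 0 := by
  intro h
  have h1 : eps j = -1 := by linear_combination h
  have h2 : (eps j)⁻¹ = -1 := by rw [h1]; norm_num
  rw [eps_inv] at h2
  have h3 : (((j + 2 : ℕ) : ℂ) + 1) = 0 := by push_cast; linear_combination h2
  exact Nat.cast_add_one_ne_zero (R := ℂ) (j + 2) h3

lemma eps_tendsto : Tendsto eps atTop (𝓝 0) := by
  have h := tendsto_one_div_add_atTop_nhds_zero_nat (𝕜 := ℂ)
  have h2 := h.comp (tendsto_add_atTop_nat 1)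
  refine h2.congr ?_
  intro j
  simp [eps]

/-- the sequence of critical points -/
noncomputable def zs (j : ℕ) : Fin 3 → ℂ := ![1 - eps j, eps j, eps j + eps j ^ 2]

lemma zs_ne (j : ℕ) (i : Fin 3) : zs j i ≠ 0 := by
  fin_cases i
  · exact one_sub_eps_ne j
  · exact eps_ne j
  · show eps j + eps j ^ 2 ≠ 0
    have : eps j + eps j ^ 2 = eps j * (1 + eps j) := by ring
    rw [this]
    exact mul_ne_zero (eps_ne j) (one_add_eps_ne j)

lemma zs_mem (j : ℕ) : zs j ∈ V Q0 := by
  refine ⟨zs_ne j, ?_⟩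
  rw [ev_Q0]
  simp [zs]
  ring

lemma logGrad_ne {z : Fin 3 → ℂ} (hz : z ∈ V Q0) : logGrad Q0 z ≠ 0 := by
  intro h
  rw [logGrad_Q0] at h
  have h1 := congrFun h 1
  simp at h1
  exact hz.1 1 h1

lemma dir_tendsto : ProjTendsto (fun j => logGrad Q0 (zs j)) ![-2, 1, -1] := by
  refine ⟨?_, fun j => (eps j)⁻¹, fun j => inv_ne_zero (eps_ne j), ?_⟩
  · intro h
    have := congrFun h 1
    simp at this
  · rw [tendsto_pi_nhds]
    intro i
    simp only [logGrad_Q0, zs]
    fin_cases i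
    · have : ∀ j, ((eps j)⁻¹ • ![-2 * (1 - eps j) * (1 - (1 - eps j)), eps j, -(eps j + eps j ^ 2)] : Fin 3 → ℂ) 0 = -2 * (1 - eps j) := by
        intro j
        have := eps_ne j
        simp
        field_simp
      simp at this ⊢
      simp only [this]
      have h := (eps_tendsto.const_sub 1).const_mul (-2 : ℂ)
      simpa using h
    · have : ∀ j, (eps j)⁻¹ * eps j = 1 := fun j => inv_mul_cancel₀ (eps_ne j)
      simp [this]
    · have : ∀ j, (eps j)⁻¹ * (-eps j ^ 2 + -eps j) = -(1 + eps j) := by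
        intro j
        have := eps_ne j
        field_simp
        ring
      simp
      simp only [this]
      have h := (eps_tendsto.const_add 1).neg
      simpa using h

lemma orbit (k : ℕ) (hk : 1 ≤ k) : ∃ x : Lat k Q0 → ℂ,
    ProjTendsto (fun j => torusMap k Q0 (zs j)) x ∧ InOrbit k Q0 Γ0 x := by
  classical
  have hk' : (k : ℝ) ≠ 0 := by positivity
  have key : ∀ a : Lat k Q0, 0 ≤ a.1 0 ∧ 0 ≤ a.1 1 ∧ 0 ≤ a.1 2 ∧
      ((a.1 1 = 0 ∧ a.1 2 = 0) ↔ toR a.1 ∈ (k : ℝ) • Γ0) := by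
    rintro ⟨a, n, hn, hna⟩
    have e : ∀ i, (a i : ℝ) = k * n i := by
      intro i
      have := congrFun hna i
      simp [toR] at this
      exact this.symm
    have h : ∀ i, 0 ≤ a i := by
      intro i
      have h1 := N_nonneg hn i
      have : (0 : ℝ) ≤ a i := by rw [e i]; positivity
      exact_mod_cast this
    refine ⟨h 0, h 1, h 2, ?_⟩
    constructor
    · rintro ⟨h1, h2⟩
      refine ⟨n, ?_, hna⟩
      rw [mem_Γ0]
      have e1 := e 1
      have e2 := e 2
      simp only at h1 h2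
      rw [h1] at e1
      rw [h2] at e2
      simp only [Int.cast_zero] at e1 e2
      refine ⟨hn, ?_, ?_⟩
      · rcases mul_eq_zero.mp e1.symm with h | h
        · exact absurd h hk'
        · exact h
      · rcases mul_eq_zero.mp e2.symm with h | h
        · exact absurd h hk'
        · exact h
    · rintro ⟨m, hm, hma⟩
      rw [mem_Γ0] at hm
      have e' : ∀ i, (a i : ℝ) = k * m i := by
        intro i
        have := congrFun hma i
        simp [toR] at this
        exact this.symm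
      have e1 := e' 1
      have e2 := e' 2
      rw [hm.2.1] at e1
      rw [hm.2.2] at e2
      simp at e1 e2
      exact ⟨e1, e2⟩
  have h0 : (0 : Fin 3 → ℤ) ∈ Lat k Q0 := by
    refine ⟨0, zero_mem, ?_⟩
    funext i
    simp [toR]
  refine ⟨fun a => if a.1 1 = 0 ∧ a.1 2 = 0 then 1 else 0, ⟨?_, fun _ => 1, fun _ => one_ne_zero, ?_⟩, ?_⟩
  · intro h
    have := congrFun h ⟨0, h0⟩
    simp at this
  · rw [tendsto_pi_nhds]
    rintro a
    obtain ⟨ha0, ha1, ha2, -⟩ := key a
    simp only [torusMap, one_smul, mono, Fin.prod_univ_three, zs]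
    obtain ⟨p, hp⟩ := Int.eq_ofNat_of_zero_le ha0
    obtain ⟨q, hq⟩ := Int.eq_ofNat_of_zero_le ha1
    obtain ⟨s, hs⟩ := Int.eq_ofNat_of_zero_le ha2
    rw [hp, hq, hs]
    simp only [zpow_natCast]
    have t1 : Tendsto (fun j => (1 - eps j) ^ p) atTop (𝓝 ((1 - 0) ^ p)) :=
      (eps_tendsto.const_sub 1).pow p
    have t2 : Tendsto (fun j => (eps j) ^ q) atTop (𝓝 (0 ^ q)) := eps_tendsto.pow q
    have t3 : Tendsto (fun j => (eps j + eps j ^ 2) ^ s) atTop (𝓝 ((0 + 0 ^ 2) ^ s)) :=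
      (eps_tendsto.add (eps_tendsto.pow 2)).pow s
    have t := (t1.mul t2).mul t3
    have e : ((1 - 0 : ℂ) ^ p * 0 ^ q * (0 + 0 ^ 2) ^ s) =
        if ((q : ℤ) = 0 ∧ (s : ℤ) = 0) then 1 else 0 := by
      rcases Nat.eq_zero_or_pos q with h | h
      · rcases Nat.eq_zero_or_pos s with h' | h'
        · subst h; subst h'; simp
        · subst h
          have : (s : ℤ) ≠ 0 := by omega
          simp [this, h'.ne']
      · have : (q : ℤ) ≠ 0 := by omega
        simp [this, h.ne']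
    rw [e] at t
    exact t
  · intro a
    rw [← (key a).2.2.2]
    simp

lemma not_parallel : ¬ Parallel ![-2, 1, -1] Γ0 := by
  intro h
  have hle : Submodule.span ℂ {v : Fin 3 → ℂ | ∃ a ∈ Γ0, ∃ b ∈ Γ0, v = fun i => ((a i - b i : ℝ) : ℂ)}
      ≤ LinearMap.ker (LinearMap.proj (R := ℂ) (φ := fun _ : Fin 3 => ℂ) 1) := by
    rw [Submodule.span_le]
    rintro _ ⟨a, ha, b, hb, rfl⟩
    rw [mem_Γ0] at ha hb
    simp [ha.2.1, hb.2.1]
  have := hle h
  simp at this

/-- **The expectation on critical points at infinity fails.** -/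
theorem result : ∃ (Q : Laurent 3) (z r : ℕ → Fin 3 → ℂ) (r' : Fin 3 → ℂ) (Γ : Set (Fin 3 → ℝ)),
    affineSpan ℝ (N Q) = ⊤ ∧ (∀ w ∈ V Q, logGrad Q w ≠ 0) ∧
    (∀ j, IsSmoothCritical Q (z j) (r j)) ∧ ProjTendsto r r' ∧ IsFace (N Q) Γ ∧
    (∀ k : ℕ, 1 ≤ k → ∃ x : Lat k Q → ℂ,
      ProjTendsto (fun j => torusMap k Q (z j)) x ∧ InOrbit k Q Γ x) ∧
    ¬ Parallel r' Γ := by
  refine ⟨Q0, zs, fun j => logGrad Q0 (zs j), ![-2, 1, -1], Γ0, fullDim, fun w hw => logGrad_ne hw,
    ?_, dir_tendsto, isFace, orbit, not_parallel⟩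
  intro j
  exact ⟨zs_mem j, logGrad_ne (zs_mem j), 1, one_ne_zero, (one_smul _ _).symm⟩

end Pool.Agent.Results.MP_759130_ag.NotParallel
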